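import Mathlib

set_option autoImplicit false

/-!
# Removing unit segments to destroy all grid squares (MP_5493ad_co)

The least number of unit segments of the `n × n` board whose removal destroys all squares of the
board is `1` for `n = 1` and `⌈n² / 2⌉ + 1` for `n ≥ 2`, and the explicit set `pattern n` attains it.
-/

namespace Pool.Agent.Results.MP_5493ad_co.ExactValue

open Finset

/-- Unit segments: `h x y` joins `(x, y)` and `(x + 1, y)`, `v x y` joins `(x, y)` and
`(x, y + 1)`. -/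
inductive Seg : Type
  | h (x y : ℕ) : Seg
  | v (x y : ℕ) : Seg
  deriving DecidableEq

/-- `E_n`: the unit segments joining adjacent points of `{0, …, n}²`. -/
def board (n : ℕ) : Finset Seg :=
  (range n ×ˢ range (n + 1)).image (fun p => Seg.h p.1 p.2) ∪
    (range (n + 1) ×ˢ range n).image (fun p => Seg.v p.1 p.2)

/-- The boundary of the square `[a, a + k] × [b, b + k]`, a set of `4 k` unit segments. -/
def square (a b k : ℕ) : Finset Seg :=
  (range k).image (fun i => Seg.h (a + i) b) ∪ (range k).image (fun i => Seg.h (a + i) (b + k)) ∪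
    (range k).image (fun i => Seg.v a (b + i)) ∪ (range k).image (fun i => Seg.v (a + k) (b + i))

/-- `R` is a set of segments of the board that contains a segment of the boundary of every
square of the board. -/
def Destroys (n : ℕ) (R : Finset Seg) : Prop :=
  R ⊆ board n ∧ ∀ k a b : ℕ, 1 ≤ k → a + k ≤ n → b + k ≤ n → (square a b k ∩ R).Nonempty

/-- `f n`: the least number of segments of a set that destroys all squares. -/
noncomputable def f (n : ℕ) : ℕ := sInf {m : ℕ | ∃ R : Finset Seg, Destroys n R ∧ R.card = m}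

/-- The segments of the optimal set, with `m = 2 ⌊n / 2⌋` and `p = ⌊n / 2⌋`. -/
def InPattern (n : ℕ) : Seg → Prop
  | Seg.h x y =>
      (x < n / 2 ∧ (x + y) % 2 = 1 ∧ x < y + 2 ∧ 2 < x + y ∧ x + y < 2 * (n / 2)) ∨
      (n / 2 ≤ x ∧ (x + y) % 2 = 0 ∧ 2 * (n / 2) ≤ x + y ∧ 1 ≤ y ∧ y ≤ x) ∨
      (x = n / 2 ∧ y + 1 = n / 2 ∧ 1 ≤ y)
  | Seg.v x y =>
      ((x + y) % 2 = 1 ∧ 2 * (n / 2) < x + y ∧ x < y) ∨
      ((x + y) % 2 = 0 ∧ y + 4 ≤ x ∧ x + y + 2 ≤ 2 * (n / 2)) ∨
      (x = 0 ∧ y = 1) ∨ (x = 1 ∧ y = 0) ∨ (n % 2 = 1 ∧ x = n ∧ y = 0)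

instance (n : ℕ) : DecidablePred (InPattern n) := fun s => by
  cases s <;> unfold InPattern <;> infer_instance

/-- The optimal set. -/
def pattern (n : ℕ) : Finset Seg := (board n).filter (InPattern n)

/-! ### Double counting -/

lemma mem_board_h (n x y : ℕ) : Seg.h x y ∈ board n ↔ x < n ∧ y ≤ n := by
  simp only [board, mem_union, mem_image, mem_product, mem_range, Prod.exists, Seg.h.injEq]
  constructor
  · rintro (⟨a, b, ⟨h1, h2⟩, rfl, rfl⟩ | ⟨a, b, _, h⟩)
    · exact ⟨h1, by omega⟩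
    · cases h
  · rintro ⟨h1, h2⟩
    exact Or.inl ⟨x, y, ⟨h1, by omega⟩, rfl, rfl⟩

lemma mem_board_v (n x y : ℕ) : Seg.v x y ∈ board n ↔ x ≤ n ∧ y < n := by
  simp only [board, mem_union, mem_image, mem_product, mem_range, Prod.exists, Seg.v.injEq]
  constructor
  · rintro (⟨a, b, _, h⟩ | ⟨a, b, ⟨h1, h2⟩, rfl, rfl⟩)
    · cases h
    · exact ⟨by omega, h2⟩
  · rintro ⟨h1, h2⟩
    exact Or.inr ⟨x, y, ⟨by omega, h2⟩, rfl, rfl⟩

/-- indicator of `R` -/
def chi (R : Finset Seg) (s : Seg) : ℕ := if s ∈ R then 1 else 0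

lemma chi_le (R : Finset Seg) (s : Seg) : chi R s ≤ 1 := by
  unfold chi; split_ifs <;> omega

/-- number of sides of the cell `[x,x+1] × [y,y+1]` in `R` -/
def hits (R : Finset Seg) (x y : ℕ) : ℕ :=
  (chi R (Seg.h x y) + chi R (Seg.h x (y + 1))) + (chi R (Seg.v x y) + chi R (Seg.v (x + 1) y))

/-- number of segments of `R` on the boundary of the board -/
def bd (n : ℕ) (R : Finset Seg) : ℕ :=
  ∑ x ∈ range n, (chi R (Seg.h x 0) + chi R (Seg.h x n)) +
    ∑ y ∈ range n, (chi R (Seg.v 0 y) + chi R (Seg.v n y))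

lemma card_eq (n : ℕ) (R : Finset Seg) (hR : R ⊆ board n) :
    R.card = ∑ x ∈ range n, ∑ y ∈ range (n + 1), chi R (Seg.h x y) +
      ∑ y ∈ range n, ∑ x ∈ range (n + 1), chi R (Seg.v x y) := by
  have h1 : R.card = ∑ s ∈ board n, chi R s := by
    unfold chi
    rw [← Finset.card_filter, Finset.filter_mem_eq_inter, Finset.inter_eq_right.2 hR]
  have hd : Disjoint ((range n ×ˢ range (n + 1)).image (fun p => Seg.h p.1 p.2))
      ((range (n + 1) ×ˢ range n).image (fun p => Seg.v p.1 p.2)) := by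
    rw [Finset.disjoint_left]
    intro s h1 h2
    simp only [mem_image] at h1 h2
    obtain ⟨a, _, rfl⟩ := h1
    obtain ⟨b, _, hb⟩ := h2
    cases hb
  rw [h1, board, Finset.sum_union hd, Finset.sum_image, Finset.sum_image, Finset.sum_product,
    Finset.sum_product, Finset.sum_comm (s := range (n + 1))]
  · rintro ⟨a, b⟩ _ ⟨c, d⟩ _ h
    simp only [Seg.v.injEq] at h
    exact Prod.ext h.1 h.2
  · rintro ⟨a, b⟩ _ ⟨c, d⟩ _ h
    simp only [Seg.h.injEq] at h
    exact Prod.ext h.1 h.2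

lemma sum_two (n : ℕ) (g : ℕ → ℕ) :
    ∑ y ∈ range n, (g y + g (y + 1)) + (g 0 + g n) = 2 * ∑ y ∈ range (n + 1), g y := by
  rw [Finset.sum_add_distrib]
  have h1 := Finset.sum_range_succ g n
  have h2 := Finset.sum_range_succ' g n
  omega

lemma double (n : ℕ) (R : Finset Seg) (hR : R ⊆ board n) :
    ∑ x ∈ range n, ∑ y ∈ range n, hits R x y + bd n R = 2 * R.card := by
  have e1 : ∑ x ∈ range n, ∑ y ∈ range n, hits R x y =
      ∑ x ∈ range n, ∑ y ∈ range n, (chi R (Seg.h x y) + chi R (Seg.h x (y + 1))) +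
      ∑ y ∈ range n, ∑ x ∈ range n, (chi R (Seg.v x y) + chi R (Seg.v (x + 1) y)) := by
    rw [Finset.sum_comm (s := range n) (t := range n)
      (f := fun y x => (chi R (Seg.v x y) + chi R (Seg.v (x + 1) y))), ← Finset.sum_add_distrib]
    refine Finset.sum_congr rfl fun x _ => ?_
    rw [← Finset.sum_add_distrib]
    rfl
  rw [card_eq n R hR, e1, bd, mul_add, Finset.mul_sum, Finset.mul_sum]
  have e2 : ∑ x ∈ range n, ∑ y ∈ range n, (chi R (Seg.h x y) + chi R (Seg.h x (y + 1))) +
      ∑ x ∈ range n, (chi R (Seg.h x 0) + chi R (Seg.h x n)) =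
      ∑ x ∈ range n, 2 * ∑ y ∈ range (n + 1), chi R (Seg.h x y) := by
    rw [← Finset.sum_add_distrib]
    exact Finset.sum_congr rfl fun x _ => sum_two n (fun y => chi R (Seg.h x y))
  have e3 : ∑ y ∈ range n, ∑ x ∈ range n, (chi R (Seg.v x y) + chi R (Seg.v (x + 1) y)) +
      ∑ y ∈ range n, (chi R (Seg.v 0 y) + chi R (Seg.v n y)) =
      ∑ y ∈ range n, 2 * ∑ x ∈ range (n + 1), chi R (Seg.v x y) := by
    rw [← Finset.sum_add_distrib]
    exact Finset.sum_congr rfl fun y _ => sum_two n (fun x => chi R (Seg.v x y))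
  omega

/-! ### Lower bound -/

lemma mem_square (a b k : ℕ) (s : Seg) : s ∈ square a b k ↔ ∃ i < k,
    s = Seg.h (a + i) b ∨ s = Seg.h (a + i) (b + k) ∨ s = Seg.v a (b + i) ∨
      s = Seg.v (a + k) (b + i) := by
  simp only [square, mem_union, mem_image, mem_range]
  constructor
  · rintro (((⟨i, hi, rfl⟩ | ⟨i, hi, rfl⟩) | ⟨i, hi, rfl⟩) | ⟨i, hi, rfl⟩)
    · exact ⟨i, hi, Or.inl rfl⟩
    · exact ⟨i, hi, Or.inr (Or.inl rfl)⟩
    · exact ⟨i, hi, Or.inr (Or.inr (Or.inl rfl))⟩
    · exact ⟨i, hi, Or.inr (Or.inr (Or.inr rfl))⟩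
  · rintro ⟨i, hi, rfl | rfl | rfl | rfl⟩
    · exact Or.inl (Or.inl (Or.inl ⟨i, hi, rfl⟩))
    · exact Or.inl (Or.inl (Or.inr ⟨i, hi, rfl⟩))
    · exact Or.inl (Or.inr ⟨i, hi, rfl⟩)
    · exact Or.inr ⟨i, hi, rfl⟩

lemma exists_chi {n : ℕ} {R : Finset Seg} (hD : Destroys n R) (k a b : ℕ) (hk : 1 ≤ k)
    (ha : a + k ≤ n) (hb : b + k ≤ n) : ∃ i < k,
    chi R (Seg.h (a + i) b) = 1 ∨ chi R (Seg.h (a + i) (b + k)) = 1 ∨
      chi R (Seg.v a (b + i)) = 1 ∨ chi R (Seg.v (a + k) (b + i)) = 1 := by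
  obtain ⟨s, hs⟩ := hD.2 k a b hk ha hb
  rw [mem_inter, mem_square] at hs
  obtain ⟨⟨i, hi, h⟩, hR⟩ := hs
  refine ⟨i, hi, ?_⟩
  rcases h with rfl | rfl | rfl | rfl
  · exact Or.inl (if_pos hR)
  · exact Or.inr (Or.inl (if_pos hR))
  · exact Or.inr (Or.inr (Or.inl (if_pos hR)))
  · exact Or.inr (Or.inr (Or.inr (if_pos hR)))

lemma one_le_hits {n : ℕ} {R : Finset Seg} (hD : Destroys n R) (x y : ℕ) (hx : x < n)
    (hy : y < n) : 1 ≤ hits R x y := by
  obtain ⟨i, hi, h⟩ := exists_chi hD 1 x y le_rfl hx hy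
  obtain rfl : i = 0 := by omega
  simp only [add_zero] at h
  unfold hits
  omega

lemma one_le_bd {n : ℕ} {R : Finset Seg} (hD : Destroys n R) (hn : 1 ≤ n) : 1 ≤ bd n R := by
  obtain ⟨i, hi, h⟩ := exists_chi hD n 0 0 hn (by omega) (by omega)
  simp only [zero_add] at h
  unfold bd
  have h1 := Finset.single_le_sum (f := fun x => chi R (Seg.h x 0) + chi R (Seg.h x n))
    (fun x _ => Nat.zero_le _) (mem_range.2 hi)
  have h2 := Finset.single_le_sum (f := fun y => chi R (Seg.v 0 y) + chi R (Seg.v n y))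
    (fun x _ => Nat.zero_le _) (mem_range.2 hi)
  omega

lemma lower_basic {n : ℕ} {R : Finset Seg} (hD : Destroys n R) (hn : 1 ≤ n) :
    n * n + 1 ≤ 2 * R.card := by
  have h1 := double n R hD.1
  have h2 := one_le_bd hD hn
  have h3 : ∑ x ∈ range n, ∑ y ∈ range n, 1 ≤ ∑ x ∈ range n, ∑ y ∈ range n, hits R x y :=
    Finset.sum_le_sum fun x hx => Finset.sum_le_sum fun y hy =>
      one_le_hits hD x y (mem_range.1 hx) (mem_range.1 hy)
  simp only [sum_const, card_range, smul_eq_mul, mul_one] at h3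
  omega

/-- The local rules satisfied by the indicator functions `H`, `V` of a set of `(n² + 1) / 2`
segments that destroys all squares. -/
structure Rules (n : ℕ) (H V : ℕ → ℕ → ℕ) : Prop where
  cell : ∀ x y, x < n → y < n → H x y + H x (y + 1) + V x y + V (x + 1) y = 1
  hor : ∀ x y, x + 2 ≤ n → y + 2 ≤ n → H x (y + 1) + H (x + 1) (y + 1) ≤ 1
  ver : ∀ x y, x + 2 ≤ n → y + 2 ≤ n → V (x + 1) y + V (x + 1) (y + 1) ≤ 1

lemma Rules.transpose {n : ℕ} {H V : ℕ → ℕ → ℕ} (h : Rules n H V) :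
    Rules n (fun x y => V y x) (fun x y => H y x) where
  cell x y hx hy := by
    have := h.cell y x hy hx
    omega
  hor x y hx hy := h.ver y x hy hx
  ver x y hx hy := h.hor y x hy hx

lemma Rules.reflect {n : ℕ} {H V : ℕ → ℕ → ℕ} (h : Rules n H V) :
    Rules n (fun x y => H (n - 1 - x) y) (fun x y => V (n - x) y) where
  cell x y hx hy := by
    have := h.cell (n - 1 - x) y (by omega) hy
    have e1 : n - 1 - x + 1 = n - x := by omega
    have e2 : n - (x + 1) = n - 1 - x := by omega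
    simp only [e1, e2] at this ⊢
    omega
  hor x y hx hy := by
    have := h.hor (n - 2 - x) y (by omega) hy
    have e1 : n - 2 - x + 1 = n - 1 - x := by omega
    have e2 : n - 1 - (x + 1) = n - 2 - x := by omega
    simp only [e1, e2] at this ⊢
    omega
  ver x y hx hy := by
    have := h.ver (n - 2 - x) y (by omega) hy
    have e1 : n - 2 - x + 1 = n - (x + 1) := by omega
    simp only [e1] at this ⊢
    omega

/-- The staircase that starts at a corner ends near the opposite corner. -/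
lemma Rules.chain {n : ℕ} {H V : ℕ → ℕ → ℕ} (h : Rules n H V) (hn : 2 ≤ n) (h1 : V 1 0 = 1)
    (h2 : V 0 1 = 0) : H (n - 2) n = 1 := by
  have key : ∀ i, i + 2 ≤ n → V (i + 1) i = 1 ∧ H i (i + 2) = 1 := by
    intro i
    induction i with
    | zero =>
      intro _
      have c0 := h.cell 0 0 (by omega) (by omega)
      have c1 := h.cell 0 1 (by omega) (by omega)
      have c2 := h.ver 0 0 (by omega) (by omega)
      simp only [zero_add] at c0 c1 c2 ⊢
      norm_num at c1
      exact ⟨h1, by omega⟩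
    | succ i ih =>
      intro hi
      obtain ⟨a1, a2⟩ := ih (by omega)
      have c1 := h.cell (i + 1) (i + 1) (by omega) (by omega)
      have c2 := h.cell (i + 1) i (by omega) (by omega)
      have c3 := h.ver i i (by omega) (by omega)
      have c4 := h.hor i (i + 1) (by omega) (by omega)
      have c5 := h.cell (i + 1) (i + 2) (by omega) (by omega)
      have c6 := h.cell i (i + 2) (by omega) (by omega)
      have c7 := h.ver (i + 1) (i + 1) (by omega) (by omega)
      have e1 : i + 1 + 1 = i + 2 := rfl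
      have e2 : i + 2 + 1 = i + 1 + 2 := rfl
      simp only [e1, e2] at c1 c2 c3 c4 c5 c6 c7 ⊢
      constructor
      · omega
      · omega
  have := (key (n - 2) (by omega)).2
  rwa [show n - 2 + 2 = n by omega] at this

lemma Rules.corner {n : ℕ} {H V : ℕ → ℕ → ℕ} (h : Rules n H V) (hn : 2 ≤ n) :
    1 ≤ V 0 0 + H 0 0 + V 0 1 + H 1 0 + H (n - 2) n + V n (n - 2) := by
  by_contra hcon
  have c0 := h.cell 0 0 (by omega) (by omega)
  simp only [zero_add] at c0
  rcases Nat.eq_zero_or_pos (V 1 0) with h0 | h0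
  · have := h.transpose.chain hn (by omega) (by omega)
    omega
  · have := h.chain hn (by omega) (by omega)
    omega

lemma sum_ge_four (n : ℕ) (hn : 4 ≤ n) (g : ℕ → ℕ) :
    g 0 + g 1 + g (n - 2) + g (n - 1) ≤ ∑ x ∈ range n, g x := by
  obtain ⟨k, rfl⟩ : ∃ k, n = k + 4 := ⟨n - 4, by omega⟩
  rw [Finset.sum_range_succ, Finset.sum_range_succ, Finset.sum_range_succ',
    Finset.sum_range_succ']
  have e1 : k + 4 - 2 = k + 2 := by omega
  have e2 : k + 4 - 1 = k + 3 := by omega
  rw [e1, e2]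
  simp only [zero_add]
  omega

lemma Rules.false {n : ℕ} {H V : ℕ → ℕ → ℕ} (h : Rules n H V) (hn : 3 ≤ n)
    (hb : ∑ x ∈ range n, (H x 0 + H x n) + ∑ y ∈ range n, (V 0 y + V n y) ≤ 1) : False := by
  have h1 := h.corner (by omega)
  have h2 := h.reflect.corner (by omega)
  simp only [Nat.sub_zero, Nat.sub_self] at h2
  rw [show n - 1 - (n - 2) = 1 by omega, show n - 1 - 1 = n - 2 by omega] at h2
  rcases Nat.lt_or_ge 3 n with h4 | h4
  · have s1 := sum_ge_four n h4 (fun x => H x 0 + H x n)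
    have s2 := sum_ge_four n h4 (fun y => V 0 y + V n y)
    omega
  · obtain rfl : n = 3 := by omega
    simp only [Finset.sum_range_succ, Finset.sum_range_zero, zero_add] at hb
    norm_num at h1 h2
    have c00 := h.cell 0 0 (by omega) (by omega)
    have c01 := h.cell 0 1 (by omega) (by omega)
    have c02 := h.cell 0 2 (by omega) (by omega)
    have c10 := h.cell 1 0 (by omega) (by omega)
    have c11 := h.cell 1 1 (by omega) (by omega)
    have c12 := h.cell 1 2 (by omega) (by omega)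
    have c20 := h.cell 2 0 (by omega) (by omega)
    have c21 := h.cell 2 1 (by omega) (by omega)
    have c22 := h.cell 2 2 (by omega) (by omega)
    norm_num at c00 c01 c02 c10 c11 c12 c20 c21 c22
    omega

lemma rules_of {n : ℕ} {R : Finset Seg} (hD : Destroys n R) (hn : 1 ≤ n)
    (hc : 2 * R.card ≤ n * n + 1) :
    Rules n (fun x y => chi R (Seg.h x y)) (fun x y => chi R (Seg.v x y)) ∧ bd n R ≤ 1 := by
  have h1 := double n R hD.1
  have h2 := one_le_bd hD hn
  have h3 : ∑ x ∈ range n, ∑ y ∈ range n, 1 ≤ ∑ x ∈ range n, ∑ y ∈ range n, hits R x y :=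
    Finset.sum_le_sum fun x hx => Finset.sum_le_sum fun y hy =>
      one_le_hits hD x y (mem_range.1 hx) (mem_range.1 hy)
  have h3' : ∑ x ∈ range n, ∑ y ∈ range n, 1 = n * n := by simp
  have hcell : ∀ x y, x < n → y < n → hits R x y = 1 := by
    intro x y hx hy
    by_contra hne
    have h4 := one_le_hits hD x y hx hy
    have h5 : ∑ x ∈ range n, ∑ y ∈ range n, 1 < ∑ x ∈ range n, ∑ y ∈ range n, hits R x y := by
      refine Finset.sum_lt_sum (fun x hx => Finset.sum_le_sum fun y hy =>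
        one_le_hits hD x y (mem_range.1 hx) (mem_range.1 hy)) ⟨x, mem_range.2 hx, ?_⟩
      refine Finset.sum_lt_sum (fun y hy => one_le_hits hD x y hx (mem_range.1 hy))
        ⟨y, mem_range.2 hy, by omega⟩
    omega
  refine ⟨⟨fun x y hx hy => ?_, fun x y hx hy => ?_, fun x y hx hy => ?_⟩, by omega⟩
  · have := hcell x y hx hy
    unfold hits at this
    omega
  · have c1 := hcell x y (by omega) (by omega)
    have c2 := hcell (x + 1) y (by omega) (by omega)
    have c3 := hcell x (y + 1) (by omega) (by omega)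
    have c4 := hcell (x + 1) (y + 1) (by omega) (by omega)
    unfold hits at c1 c2 c3 c4
    obtain ⟨i, hi, h⟩ := exists_chi hD 2 x y (by omega) hx hy
    have e1 : x + 1 + 1 = x + 2 := rfl
    have e2 : y + 1 + 1 = y + 2 := rfl
    rw [e1] at c2 c4
    rw [e2] at c3 c4
    interval_cases i
    · simp only [add_zero] at h
      omega
    · omega
  · have c1 := hcell x y (by omega) (by omega)
    have c2 := hcell (x + 1) y (by omega) (by omega)
    have c3 := hcell x (y + 1) (by omega) (by omega)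
    have c4 := hcell (x + 1) (y + 1) (by omega) (by omega)
    unfold hits at c1 c2 c3 c4
    obtain ⟨i, hi, h⟩ := exists_chi hD 2 x y (by omega) hx hy
    have e1 : x + 1 + 1 = x + 2 := rfl
    have e2 : y + 1 + 1 = y + 2 := rfl
    rw [e1] at c2 c4
    rw [e2] at c3 c4
    interval_cases i
    · simp only [add_zero] at h
      omega
    · omega

lemma lower {n : ℕ} {R : Finset Seg} (hD : Destroys n R) (hn : 2 ≤ n) :
    (n ^ 2 + 1) / 2 + 1 ≤ R.card := by
  have h1 := lower_basic hD (by omega)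
  have e : n ^ 2 = n * n := sq n
  rcases Nat.even_or_odd n with h | h
  · obtain ⟨k, hk⟩ := h.mul_left n
    omega
  · obtain ⟨k, hk⟩ := h.mul h
    by_contra hcon
    have hn3 : 3 ≤ n := by
      obtain ⟨j, hj⟩ := h
      omega
    obtain ⟨r, hb⟩ := rules_of hD (by omega) (by omega)
    exact r.false hn3 hb

/-! ### The construction -/

lemma mem_h (n x y : ℕ) : Seg.h x y ∈ pattern n ↔ (x < n ∧ y ≤ n) ∧
      ((x < n / 2 ∧ (x + y) % 2 = 1 ∧ x < y + 2 ∧ 2 < x + y ∧ x + y < 2 * (n / 2)) ∨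
      (n / 2 ≤ x ∧ (x + y) % 2 = 0 ∧ 2 * (n / 2) ≤ x + y ∧ 1 ≤ y ∧ y ≤ x) ∨
      (x = n / 2 ∧ y + 1 = n / 2 ∧ 1 ≤ y)) := by
  unfold pattern
  simp only [mem_filter, mem_board_h, InPattern]

lemma mem_v (n x y : ℕ) : Seg.v x y ∈ pattern n ↔ (x ≤ n ∧ y < n) ∧
      (((x + y) % 2 = 1 ∧ 2 * (n / 2) < x + y ∧ x < y) ∨
      ((x + y) % 2 = 0 ∧ y + 4 ≤ x ∧ x + y + 2 ≤ 2 * (n / 2)) ∨
      (x = 0 ∧ y = 1) ∨ (x = 1 ∧ y = 0) ∨ (n % 2 = 1 ∧ x = n ∧ y = 0)) := by
  unfold pattern
  simp only [mem_filter, mem_board_v, InPattern]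

lemma chi_pair (R : Finset Seg) (s t : Seg) (h : ¬ (s ∈ R ∧ t ∈ R)) : chi R s + chi R t ≤ 1 := by
  unfold chi
  split_ifs with h1 h2
  · exact absurd ⟨h1, h2⟩ h
  all_goals omega

lemma hits_pattern_le (n x y : ℕ) (hn : 2 ≤ n) :
    hits (pattern n) x y ≤ 1 + if x = n / 2 ∧ y = n / 2 - 1 then 1 else 0 := by
  have a1 := chi_pair (pattern n) (Seg.h x y) (Seg.v x y) (by
    rw [mem_h, mem_v]; omega)
  have a2 := chi_pair (pattern n) (Seg.h x y) (Seg.v (x + 1) y) (by
    rw [mem_h, mem_v]; omega)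
  have a4 := chi_pair (pattern n) (Seg.h x (y + 1)) (Seg.v (x + 1) y) (by
    rw [mem_h, mem_v]; omega)
  have a5 := chi_pair (pattern n) (Seg.v x y) (Seg.v (x + 1) y) (by
    rw [mem_v, mem_v]; omega)
  have b1 := chi_le (pattern n) (Seg.h x y)
  have b2 := chi_le (pattern n) (Seg.h x (y + 1))
  unfold hits
  split_ifs with hsp
  · omega
  · have a3 := chi_pair (pattern n) (Seg.h x (y + 1)) (Seg.v x y) (by
      rw [mem_h, mem_v]; omega)
    have a6 := chi_pair (pattern n) (Seg.h x y) (Seg.h x (y + 1)) (by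
      rw [mem_h, mem_h]; omega)
    omega

lemma bd_pattern_le (n : ℕ) (hn : 2 ≤ n) : bd n (pattern n) ≤ 1 + n % 2 := by
  have e1 : ∑ x ∈ range n, (chi (pattern n) (Seg.h x 0) + chi (pattern n) (Seg.h x n)) = 0 := by
    refine Finset.sum_eq_zero fun x hx => ?_
    rw [mem_range] at hx
    have h1 : Seg.h x 0 ∉ pattern n := by rw [mem_h]; omega
    have h2 : Seg.h x n ∉ pattern n := by rw [mem_h]; omega
    unfold chi
    rw [if_neg h1, if_neg h2, add_zero]
  have e2 : ∑ y ∈ range n, (chi (pattern n) (Seg.v 0 y) + chi (pattern n) (Seg.v n y)) ≤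
      ∑ y ∈ range n, ((if y = 1 then 1 else 0) + (if y = 0 then n % 2 else 0)) := by
    refine Finset.sum_le_sum fun y hy => ?_
    rw [mem_range] at hy
    refine add_le_add ?_ ?_
    · unfold chi
      split_ifs with h1 h2
      · exact le_rfl
      · rw [mem_v] at h1
        omega
      · exact Nat.zero_le _
      · exact Nat.zero_le _
    · unfold chi
      split_ifs with h1 h2
      · rw [mem_v] at h1
        omega
      · rw [mem_v] at h1
        omega
      · exact Nat.zero_le _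
      · exact Nat.zero_le _
  have e3 : ∑ y ∈ range n, ((if y = 1 then 1 else 0) + (if y = 0 then n % 2 else 0)) =
      1 + n % 2 := by
    rw [Finset.sum_add_distrib, Finset.sum_ite_eq', Finset.sum_ite_eq',
      if_pos (mem_range.2 (by omega)), if_pos (mem_range.2 (by omega))]
  unfold bd
  omega

lemma card_pattern_le (n : ℕ) (hn : 2 ≤ n) : (pattern n).card ≤ (n ^ 2 + 1) / 2 + 1 := by
  have h1 := double n (pattern n) (filter_subset _ _)
  have h2 := bd_pattern_le n hn
  have h3 : ∑ x ∈ range n, ∑ y ∈ range n, hits (pattern n) x y ≤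
      ∑ x ∈ range n, ∑ y ∈ range n, (1 + if x = n / 2 ∧ y = n / 2 - 1 then 1 else 0) :=
    Finset.sum_le_sum fun x _ => Finset.sum_le_sum fun y _ => hits_pattern_le n x y hn
  have h4 : ∑ x ∈ range n, ∑ y ∈ range n, (1 + if x = n / 2 ∧ y = n / 2 - 1 then 1 else 0) ≤
      n * n + 1 := by
    have e : ∀ x, ∑ y ∈ range n, (1 + if x = n / 2 ∧ y = n / 2 - 1 then 1 else 0) ≤
        n + if x = n / 2 then 1 else 0 := by
      intro x
      rw [Finset.sum_add_distrib, Finset.sum_const, card_range, smul_eq_mul, mul_one]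
      refine Nat.add_le_add_left ?_ n
      by_cases hx : x = n / 2
      · simp only [hx, true_and, if_true]
        rw [Finset.sum_ite_eq']
        split_ifs <;> omega
      · simp [hx]
    refine (Finset.sum_le_sum fun x _ => e x).trans ?_
    rw [Finset.sum_add_distrib, Finset.sum_const, card_range, smul_eq_mul, Finset.sum_ite_eq']
    split_ifs <;> omega
  have e : n ^ 2 = n * n := sq n
  rcases Nat.mod_two_eq_zero_or_one n with q | q
  · obtain ⟨r, hr⟩ : ∃ r, n * n = 2 * r := ⟨n / 2 * n, by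
      rw [← mul_assoc, Nat.mul_div_cancel' (Nat.dvd_of_mod_eq_zero q)]⟩
    omega
  · obtain ⟨r, hr⟩ : ∃ r, n * n = 2 * r + 1 := by
      obtain ⟨k, hk⟩ := (Nat.odd_iff.2 q).mul (Nat.odd_iff.2 q)
      exact ⟨k, hk⟩
    omega

lemma hL {n x y : ℕ} (h1 : x < n / 2) (h2 : (x + y) % 2 = 1) (h3 : x < y + 2) (h4 : 2 < x + y)
    (h5 : x + y < 2 * (n / 2)) : Seg.h x y ∈ pattern n :=
  mem_filter.2 ⟨(mem_board_h n x y).2 ⟨by omega, by omega⟩, Or.inl ⟨h1, h2, h3, h4, h5⟩⟩

lemma hR {n x y : ℕ} (h0 : x < n) (h1 : n / 2 ≤ x) (h2 : (x + y) % 2 = 0)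
    (h3 : 2 * (n / 2) ≤ x + y) (h4 : 1 ≤ y) (h5 : y ≤ x) : Seg.h x y ∈ pattern n :=
  mem_filter.2 ⟨(mem_board_h n x y).2 ⟨by omega, by omega⟩, Or.inr (Or.inl ⟨h1, h2, h3, h4, h5⟩)⟩

lemma hX {n x y : ℕ} (h1 : x = n / 2) (h2 : y + 1 = n / 2) (h3 : 1 ≤ y) :
    Seg.h x y ∈ pattern n :=
  mem_filter.2 ⟨(mem_board_h n x y).2 ⟨by omega, by omega⟩, Or.inr (Or.inr ⟨h1, h2, h3⟩)⟩

lemma vT {n x y : ℕ} (h0 : y < n) (h1 : (x + y) % 2 = 1) (h2 : 2 * (n / 2) < x + y) (h3 : x < y) :
    Seg.v x y ∈ pattern n :=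
  mem_filter.2 ⟨(mem_board_v n x y).2 ⟨by omega, by omega⟩, Or.inl ⟨h1, h2, h3⟩⟩

lemma vB {n x y : ℕ} (h1 : (x + y) % 2 = 0) (h2 : y + 4 ≤ x) (h3 : x + y + 2 ≤ 2 * (n / 2)) :
    Seg.v x y ∈ pattern n :=
  mem_filter.2 ⟨(mem_board_v n x y).2 ⟨by omega, by omega⟩, Or.inr (Or.inl ⟨h1, h2, h3⟩)⟩

lemma v01 {n : ℕ} (hn : 2 ≤ n) : Seg.v 0 1 ∈ pattern n :=
  mem_filter.2 ⟨(mem_board_v n 0 1).2 ⟨by omega, by omega⟩, Or.inr (Or.inr (Or.inl ⟨rfl, rfl⟩))⟩

lemma v10 {n : ℕ} (hn : 1 ≤ n) : Seg.v 1 0 ∈ pattern n :=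
  mem_filter.2 ⟨(mem_board_v n 1 0).2 ⟨by omega, by omega⟩,
    Or.inr (Or.inr (Or.inr (Or.inl ⟨rfl, rfl⟩)))⟩

lemma vN {n x y : ℕ} (h1 : n % 2 = 1) (h2 : x = n) (h3 : y = 0) : Seg.v x y ∈ pattern n :=
  mem_filter.2 ⟨(mem_board_v n x y).2 ⟨by omega, by omega⟩,
    Or.inr (Or.inr (Or.inr (Or.inr ⟨h1, h2, h3⟩)))⟩

/-- Every cell has a side in the pattern. -/
lemma cover {n x y : ℕ} (hn : 1 ≤ n) (hx : x < n) (hy : y < n) :
    Seg.h x y ∈ pattern n ∨ Seg.h x (y + 1) ∈ pattern n ∨ Seg.v x y ∈ pattern n ∨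
      Seg.v (x + 1) y ∈ pattern n := by
  rcases Nat.lt_or_ge (x + y) 2 with hs | hs
  · have : (x = 0 ∧ y = 0) ∨ (x = 0 ∧ y = 1) ∨ (x = 1 ∧ y = 0) := by omega
    rcases this with ⟨rfl, rfl⟩ | ⟨rfl, rfl⟩ | ⟨rfl, rfl⟩
    · exact Or.inr (Or.inr (Or.inr (v10 (by omega))))
    · exact Or.inr (Or.inr (Or.inl (v01 (by omega))))
    · exact Or.inr (Or.inr (Or.inl (v10 (by omega))))
  rcases Nat.mod_two_eq_zero_or_one (x + y) with q | q
  · rcases Nat.lt_or_ge x y with h1 | h1
    · rcases Nat.lt_or_ge (x + y) (2 * (n / 2)) with h2 | h2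
      · exact Or.inr (Or.inl (hL (by omega) (by omega) (by omega) (by omega) (by omega)))
      · exact Or.inr (Or.inr (Or.inr (vT (by omega) (by omega) (by omega) (by omega))))
    · rcases Nat.lt_or_ge (x + y + 1) (2 * (n / 2)) with h2 | h2
      · rcases Nat.lt_or_ge x (y + 3) with h3 | h3
        · rcases Nat.lt_or_ge x (n / 2) with h4 | h4
          · exact Or.inr (Or.inl (hL (by omega) (by omega) (by omega) (by omega) (by omega)))
          · exact Or.inr (Or.inl (hX (by omega) (by omega) (by omega)))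
        · exact Or.inr (Or.inr (Or.inl (vB (by omega) (by omega) (by omega))))
      · rcases Nat.eq_zero_or_pos y with h3 | h3
        · exact Or.inr (Or.inr (Or.inr (vN (by omega) (by omega) (by omega))))
        · exact Or.inl (hR (by omega) (by omega) (by omega) (by omega) (by omega) (by omega))
  · rcases Nat.lt_or_ge x y with h1 | h1
    · rcases Nat.lt_or_ge (x + y) (2 * (n / 2)) with h2 | h2
      · exact Or.inl (hL (by omega) (by omega) (by omega) (by omega) (by omega))
      · exact Or.inr (Or.inr (Or.inl (vT (by omega) (by omega) (by omega) (by omega))))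
    · rcases Nat.lt_or_ge (x + y + 1) (2 * (n / 2)) with h2 | h2
      · rcases Nat.lt_or_ge x (y + 3) with h3 | h3
        · exact Or.inl (hL (by omega) (by omega) (by omega) (by omega) (by omega))
        · exact Or.inr (Or.inr (Or.inr (vB (by omega) (by omega) (by omega))))
      · exact Or.inr (Or.inl (hR (by omega) (by omega) (by omega) (by omega) (by omega)
          (by omega)))

lemma destroys_aux {n k a b : ℕ} (hn : 1 ≤ n) (hk : 1 ≤ k) (ha : a + k ≤ n) (hb : b + k ≤ n) :
    (square a b k ∩ pattern n).Nonempty := by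
  by_contra hcon
  have N : ∀ i < k, Seg.h (a + i) b ∉ pattern n ∧ Seg.h (a + i) (b + k) ∉ pattern n ∧
      Seg.v a (b + i) ∉ pattern n ∧ Seg.v (a + k) (b + i) ∉ pattern n := by
    intro i hi
    refine ⟨fun h => hcon ⟨_, mem_inter.2 ⟨(mem_square _ _ _ _).2 ⟨i, hi, Or.inl rfl⟩, h⟩⟩,
      fun h => hcon ⟨_, mem_inter.2 ⟨(mem_square _ _ _ _).2 ⟨i, hi, Or.inr (Or.inl rfl)⟩, h⟩⟩,
      fun h => hcon ⟨_, mem_inter.2 ⟨(mem_square _ _ _ _).2
        ⟨i, hi, Or.inr (Or.inr (Or.inl rfl))⟩, h⟩⟩,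
      fun h => hcon ⟨_, mem_inter.2 ⟨(mem_square _ _ _ _).2
        ⟨i, hi, Or.inr (Or.inr (Or.inr rfl))⟩, h⟩⟩⟩
  rcases Nat.lt_or_ge 1 k with hk2 | hk1
  swap
  · obtain rfl : k = 1 := by omega
    have h0 := N 0 (by omega)
    simp only [add_zero] at h0
    rcases cover hn (show a < n by omega) (show b < n by omega) with h | h | h | h
    · exact h0.1 h
    · exact h0.2.1 h
    · exact h0.2.2.1 h
    · exact h0.2.2.2 h
  have bot : ∀ x, a ≤ x → x < a + k → Seg.h x b ∉ pattern n := fun x h1 h2 => by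
    have := (N (x - a) (by omega)).1
    rwa [show a + (x - a) = x by omega] at this
  have top : ∀ x, a ≤ x → x < a + k → Seg.h x (b + k) ∉ pattern n := fun x h1 h2 => by
    have := (N (x - a) (by omega)).2.1
    rwa [show a + (x - a) = x by omega] at this
  have left : ∀ y, b ≤ y → y < b + k → Seg.v a y ∉ pattern n := fun y h1 h2 => by
    have := (N (y - b) (by omega)).2.2.1
    rwa [show b + (y - b) = y by omega] at this
  have right : ∀ y, b ≤ y → y < b + k → Seg.v (a + k) y ∉ pattern n := fun y h1 h2 => by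
    have := (N (y - b) (by omega)).2.2.2
    rwa [show b + (y - b) = y by omega] at this
  clear N hcon
  have F2 : ¬ (2 * (n / 2) + 1 ≤ a + b + 2 * k - 2 ∧ a + 2 < b) := by
    rintro ⟨u1, u2⟩
    rcases Nat.mod_two_eq_zero_or_one (a + b) with q | q
    · exact right (b + k - 1) (by omega) (by omega)
        (vT (by omega) (by omega) (by omega) (by omega))
    · exact right (b + k - 2) (by omega) (by omega)
        (vT (by omega) (by omega) (by omega) (by omega))
  have F3 : ¬ (2 * (n / 2) ≤ a + b + 2 * k - 2 ∧ b + 2 ≤ a) := by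
    rintro ⟨u1, u2⟩
    rcases Nat.mod_two_eq_zero_or_one (a + b) with q | q
    · exact top (a + k - 2) (by omega) (by omega)
        (hR (by omega) (by omega) (by omega) (by omega) (by omega) (by omega))
    · exact top (a + k - 1) (by omega) (by omega)
        (hR (by omega) (by omega) (by omega) (by omega) (by omega) (by omega))
  have F5 : ¬ (n / 2 + 2 ≤ a + k ∧ 2 * (n / 2) + 2 ≤ a + k + b ∧ 1 ≤ b ∧ b + 2 ≤ a + k) := by
    rintro ⟨u1, u2, u3, u4⟩
    rcases Nat.mod_two_eq_zero_or_one (a + k + b) with q | q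
    · exact bot (a + k - 2) (by omega) (by omega)
        (hR (by omega) (by omega) (by omega) (by omega) (by omega) (by omega))
    · exact bot (a + k - 1) (by omega) (by omega)
        (hR (by omega) (by omega) (by omega) (by omega) (by omega) (by omega))
  have F7 : ¬ (b + 5 ≤ a ∧ a + b + 3 ≤ 2 * (n / 2)) := by
    rintro ⟨u1, u2⟩
    rcases Nat.mod_two_eq_zero_or_one (a + b) with q | q
    · exact left b (by omega) (by omega) (vB (by omega) (by omega) (by omega))
    · exact left (b + 1) (by omega) (by omega) (vB (by omega) (by omega) (by omega))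
  have F8 : ¬ (b + 5 ≤ a + k ∧ a + k + b + 3 ≤ 2 * (n / 2)) := by
    rintro ⟨u1, u2⟩
    rcases Nat.mod_two_eq_zero_or_one (a + k + b) with q | q
    · exact right b (by omega) (by omega) (vB (by omega) (by omega) (by omega))
    · exact right (b + 1) (by omega) (by omega) (vB (by omega) (by omega) (by omega))
  have F10 : ¬ (a = 0 ∧ b ≤ 1) := by
    rintro ⟨rfl, u2⟩
    exact left 1 (by omega) (by omega) (v01 (by omega))
  have F11 : ¬ (a = 1 ∧ b = 0) := by
    rintro ⟨rfl, rfl⟩
    exact left 0 (by omega) (by omega) (v10 (by omega))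
  have F12 : ¬ (b + 1 = n / 2 ∧ 1 ≤ b ∧ a ≤ n / 2 ∧ n / 2 < a + k) := by
    rintro ⟨u1, u2, u3, u4⟩
    exact bot (n / 2) (by omega) (by omega) (hX (by omega) (by omega) (by omega))
  have F13 : ¬ (b + k + 1 = n / 2 ∧ a ≤ n / 2 ∧ n / 2 < a + k) := by
    rintro ⟨u1, u3, u4⟩
    exact top (n / 2) (by omega) (by omega) (hX (by omega) (by omega) (by omega))
  have F14 : ¬ ((a + b) % 2 = 0 ∧ 2 * (n / 2) < a + b + 2 * k - 1 ∧ a + 1 < b) := by
    rintro ⟨u1, u2, u3⟩
    exact right (b + k - 1) (by omega) (by omega)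
      (vT (by omega) (by omega) (by omega) (by omega))
  have F15 : ¬ (a < n / 2 ∧ (a + b) % 2 = 1 ∧ a < b + 2 ∧ 2 < a + b ∧ a + b < 2 * (n / 2)) := by
    rintro ⟨u1, u2, u3, u4, u5⟩
    exact bot a (by omega) (by omega) (hL u1 u2 u3 u4 u5)
  have F16 : ¬ (a + 1 < n / 2 ∧ (a + b) % 2 = 0 ∧ a < b + 1 ∧ 2 ≤ a + b ∧
      a + b + 1 < 2 * (n / 2)) := by
    rintro ⟨u1, u2, u3, u4, u5⟩
    exact bot (a + 1) (by omega) (by omega)
      (hL (by omega) (by omega) (by omega) (by omega) (by omega))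
  have F17 : ¬ ((a + k + b) % 2 = 0 ∧ b + 4 ≤ a + k ∧ a + k + b + 2 ≤ 2 * (n / 2)) := by
    rintro ⟨u1, u2, u3⟩
    exact right b (by omega) (by omega) (vB (by omega) (by omega) (by omega))
  have F19 : ¬ (n / 2 < a + k ∧ (a + k + b) % 2 = 1 ∧ 2 * (n / 2) < a + k + b ∧ 1 ≤ b ∧
      b < a + k) := by
    rintro ⟨u1, u2, u3, u4, u5⟩
    exact bot (a + k - 1) (by omega) (by omega)
      (hR (by omega) (by omega) (by omega) (by omega) (by omega) (by omega))
  clear bot top left right
  generalize hp : n / 2 = p at *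
  have hnp : n ≤ 2 * p + 1 := by omega
  have hnp2 : 2 * p ≤ n := by omega
  clear hp
  rcases Nat.eq_zero_or_pos b with rfl | hb0
  · clear F2 F12 F14 F15 F16 F19 F5
    omega
  rcases Nat.lt_or_ge (a + b + 2 * k) (2 * p + 3) with h1 | h1
  · rcases Nat.lt_or_ge (2 * p) (a + b + k + 3) with h2 | h2
    · have hk4 : k = 2 ∨ k = 3 ∨ k = 4 := by omega
      rcases hk4 with rfl | rfl | rfl
      · obtain h5 | h5 | h5 : a + b + 4 = 2 * p ∨ a + b + 3 = 2 * p ∨ a + b + 2 = 2 * p := by
          omega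
        · have g1 : a < b + 2 := by
            by_contra h
            exact F17 ⟨by omega, by omega, by omega⟩
          exact F16 ⟨by omega, by omega, by omega, by omega, by omega⟩
        · have g1 : a ≤ b + 4 := by
            by_contra h
            exact F7 ⟨by omega, by omega⟩
          rcases Nat.lt_or_ge a (b + 2) with g2 | g2
          · have g3 : a + b ≤ 2 := by
              by_contra h
              exact F15 ⟨by omega, by omega, by omega, by omega, by omega⟩
            exact F10 ⟨by omega, by omega⟩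
          · exact F13 ⟨by omega, by omega, by omega⟩
        · have g1 : a < b + 2 := by
            by_contra h
            exact F3 ⟨by omega, by omega⟩
          have g2 : b ≤ a + 1 := by
            by_contra h
            exact F14 ⟨by omega, by omega, by omega⟩
          exact F12 ⟨by omega, by omega, by omega, by omega⟩
      · obtain h5 | h5 : a + b + 5 = 2 * p ∨ a + b + 4 = 2 * p := by omega
        · have g1 : a ≤ b := by
            by_contra h
            exact F17 ⟨by omega, by omega, by omega⟩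
          have g3 : a + b ≤ 2 := by
            by_contra h
            exact F15 ⟨by omega, by omega, by omega, by omega, by omega⟩
          exact F10 ⟨by omega, by omega⟩
        · have g1 : a < b + 2 := by
            by_contra h
            exact F3 ⟨by omega, by omega⟩
          exact F16 ⟨by omega, by omega, by omega, by omega, by omega⟩
      · have g1 : a < b := by
          by_contra h
          exact F17 ⟨by omega, by omega, by omega⟩
        exact F16 ⟨by omega, by omega, by omega, by omega, by omega⟩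
    · have g0 : a + k ≤ b + 4 := by
        by_contra h
        exact F8 ⟨by omega, by omega⟩
      rcases Nat.mod_two_eq_zero_or_one (a + b) with q | q
      · have g1 : b + 1 ≤ a := by
          by_contra h
          exact F16 ⟨by omega, by omega, by omega, by omega, by omega⟩
        exact F17 ⟨by omega, by omega, by omega⟩
      · have g1 : a + b ≤ 2 := by
          by_contra h
          exact F15 ⟨by omega, by omega, by omega, by omega, by omega⟩
        exact F10 ⟨by omega, by omega⟩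
  · have h3 : b ≤ a + 2 := by
      by_contra h
      exact F2 ⟨by omega, by omega⟩
    have h4 : a < b + 2 := by
      by_contra h
      exact F3 ⟨by omega, by omega⟩
    obtain h5 | h5 | h5 | h5 : b = a + 2 ∨ b = a + 1 ∨ a = b ∨ a = b + 1 := by omega
    · exact F14 ⟨by omega, by omega, by omega⟩
    · have g1 : p ≤ a ∨ a + b ≤ 2 := by
        by_contra h
        exact F15 ⟨by omega, by omega, by omega, by omega, by omega⟩
      rcases g1 with g1 | g1
      · rcases Nat.lt_or_ge k 3 with hk3 | hk3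
        · exact F19 ⟨by omega, by omega, by omega, by omega, by omega⟩
        · exact F5 ⟨by omega, by omega, by omega, by omega⟩
      · exact F10 ⟨by omega, by omega⟩
    · have g1 : p ≤ a + 1 := by
        by_contra h
        exact F16 ⟨by omega, by omega, by omega, by omega, by omega⟩
      have g2 : b + 1 ≠ p := fun h => F12 ⟨h, by omega, by omega, by omega⟩
      exact F5 ⟨by omega, by omega, by omega, by omega⟩
    · have g1 : p ≤ a := by
        by_contra h
        exact F15 ⟨by omega, by omega, by omega, by omega, by omega⟩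
      have g2 : b + 1 ≠ p := fun h => F12 ⟨h, by omega, by omega, by omega⟩
      exact F5 ⟨by omega, by omega, by omega, by omega⟩

lemma destroys_pattern (n : ℕ) (hn : 1 ≤ n) : Destroys n (pattern n) :=
  ⟨filter_subset _ _, fun _ _ _ hk ha hb => destroys_aux hn hk ha hb⟩

lemma f_eq {n m : ℕ} (h1 : ∃ R : Finset Seg, Destroys n R ∧ R.card = m)
    (h2 : ∀ R : Finset Seg, Destroys n R → m ≤ R.card) : f n = m := by
  refine le_antisymm (Nat.sInf_le h1) (le_csInf ⟨m, h1⟩ ?_)
  rintro _ ⟨R, hR, rfl⟩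
  exact h2 R hR

lemma card_pattern (n : ℕ) (hn : 2 ≤ n) : (pattern n).card = (n ^ 2 + 1) / 2 + 1 :=
  le_antisymm (card_pattern_le n hn) (lower (destroys_pattern n (by omega)) hn)

/-- **Answer to Q1.** The least number `f n` of unit segments whose removal destroys all squares of
the `n × n` board is `f 1 = 1` and `f n = ⌈n² / 2⌉ + 1` for `n ≥ 2`, and for every `n ≥ 1` the
explicit set `pattern n` destroys all squares and has `f n` elements. -/
theorem result :
    f 1 = 1 ∧
    (∀ n : ℕ, 2 ≤ n → f n = (n ^ 2 + 1) / 2 + 1) ∧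
    (∀ n : ℕ, 1 ≤ n → Destroys n (pattern n) ∧ (pattern n).card = f n) ∧
    ∀ (n : ℕ) (R : Finset Seg), 1 ≤ n → Destroys n R → f n ≤ R.card := by
  have h1 : f 1 = 1 := by
    refine f_eq ⟨pattern 1, destroys_pattern 1 le_rfl, by decide⟩ fun R hR => ?_
    have := lower_basic hR le_rfl
    omega
  have h2 : ∀ n : ℕ, 2 ≤ n → f n = (n ^ 2 + 1) / 2 + 1 := fun n hn =>
    f_eq ⟨pattern n, destroys_pattern n (by omega), card_pattern n hn⟩
      fun R hR => lower hR hn
  refine ⟨h1, h2, fun n hn => ⟨destroys_pattern n hn, ?_⟩, fun n R _ hR => Nat.sInf_le ⟨R, hR, rfl⟩⟩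
  rcases Nat.lt_or_ge 1 n with h | h
  · rw [h2 n h, card_pattern n h]
  · obtain rfl : n = 1 := by omega
    rw [h1]
    decide

end Pool.Agent.Results.MP_5493ad_co.ExactValue
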